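import Mathlib

/-!
# A symmetric, even, T0 matrix that is not the CN matrix of a pure braid projection

The matrix is `14 × 14`; its rows are indexed by the subsets of `{0,1,2,3}` of sizes `1, 2, 3`
(listed by size), the entry is `0` for comparable (or equal) subsets and `2` for incomparable ones.

If a pure braid projection `B` had this matrix, comparable subsets would keep their left-to-right
order for all times.  For `i < 4` let `t i` be a time at which the strand of `{i}` is to the right
of the strand of the complement of `{i}`.  At that time all sets containing `i` are to the right of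
all sets not containing `i`.  If `t i < t j < t k < t l`, then the strands of `{i,k}` and `{j,l}`
exchange their order between `t i` and `t j`, between `t j` and `t k`, and between `t k` and `t l`,
so they cross at least three times, and not twice.
-/

open Set

namespace Pool.Agent.Results.MP_550572_gt.MiddleLevels

/-- An `n`-braid projection: `n` strands running monotonically from the upper bar (height `0`) to
the lower bar (height `1`), i.e. `n` continuous functions of the height, indexed from left to right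
by their starting points, with finitely many crossings, all of them transverse double points in the
interior. -/
structure BraidProjection (n : ℕ) where
  /-- the horizontal position of a strand at each height -/
  strand : Fin n → ℝ → ℝ
  continuousOn : ∀ i, ContinuousOn (strand i) (Icc 0 1)
  /-- the strands start at different points, indexed from left to right -/
  top : ∀ i j, i < j → strand i 0 < strand j 0
  /-- the strands end at different points -/
  bottom : ∀ i j, i ≠ j → strand i 1 ≠ strand j 1
  /-- finitely many crossings -/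
  finite : ∀ i j, i ≠ j → {t | t ∈ Ioo (0 : ℝ) 1 ∧ strand i t = strand j t}.Finite
  /-- no three strands meet in a point -/
  double : ∀ i j k, i ≠ j → j ≠ k → i ≠ k → ∀ t ∈ Ioo (0 : ℝ) 1,
    ¬ (strand i t = strand j t ∧ strand j t = strand k t)
  /-- the crossings are transverse: the two strands exchange sides -/
  transverse : ∀ i j, i ≠ j → ∀ t ∈ Ioo (0 : ℝ) 1, strand i t = strand j t →
    ∃ ε > 0,
      ((∀ s ∈ Ioo (t - ε) t, strand i s < strand j s) ∧
        (∀ s ∈ Ioo t (t + ε), strand j s < strand i s)) ∨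
      ((∀ s ∈ Ioo (t - ε) t, strand j s < strand i s) ∧
        (∀ s ∈ Ioo t (t + ε), strand i s < strand j s))

/-- The projection is pure: each strand ends at the position (counted from left to right) at which
it started. -/
def BraidProjection.Pure {n : ℕ} (B : BraidProjection n) : Prop :=
  ∀ i j, i < j → B.strand i 1 < B.strand j 1

/-- The CN matrix: zero diagonal, and the `(i, j)` entry counts the crossings of the strands
`i ≠ j`. -/
noncomputable def BraidProjection.cn {n : ℕ} (B : BraidProjection n) :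
    Matrix (Fin n) (Fin n) ℕ :=
  fun i j => if i = j then 0 else
    {t | t ∈ Ioo (0 : ℝ) 1 ∧ B.strand i t = B.strand j t}.ncard

/-- The condition T0 (with zero diagonal). -/
def IsT0 {n : ℕ} (M : Matrix (Fin n) (Fin n) ℕ) : Prop :=
  (∀ i, M i i = 0) ∧ ∀ i j k, i < j → j < k → M i j = 0 → M j k = 0 → M i k = 0

/-! ### Two lemmas on continuous functions -/

lemma zero_between {f : ℝ → ℝ} (hf : ContinuousOn f (Icc 0 1)) {x y : ℝ} (hx : 0 < x)
    (hxy : x < y) (hy : y < 1) (h : f x * f y < 0) : ∃ z, x < z ∧ z < y ∧ f z = 0 := by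
  have hc : ContinuousOn f (Icc x y) :=
    hf.mono (Icc_subset_Icc hx.le hy.le)
  rcases mul_neg_iff.1 h with ⟨h1, h2⟩ | ⟨h1, h2⟩
  · obtain ⟨z, hz, hz0⟩ := intermediate_value_Ioo' hxy.le hc ⟨h2, h1⟩
    exact ⟨z, hz.1, hz.2, hz0⟩
  · obtain ⟨z, hz, hz0⟩ := intermediate_value_Ioo hxy.le hc ⟨h1, h2⟩
    exact ⟨z, hz.1, hz.2, hz0⟩

lemma three_zeros {f : ℝ → ℝ} (hf : ContinuousOn f (Icc 0 1)) {a b c d : ℝ} (ha : 0 < a)
    (hab : a < b) (hbc : b < c) (hcd : c < d) (hd : d < 1)
    (h1 : f a * f b < 0) (h2 : f b * f c < 0) (h3 : f c * f d < 0)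
    (hfin : {t | t ∈ Ioo (0 : ℝ) 1 ∧ f t = 0}.Finite) :
    3 ≤ {t | t ∈ Ioo (0 : ℝ) 1 ∧ f t = 0}.ncard := by
  obtain ⟨x, hx1, hx2, hx⟩ := zero_between hf ha hab (by linarith) h1
  obtain ⟨y, hy1, hy2, hy⟩ := zero_between hf (by linarith) hbc (by linarith) h2
  obtain ⟨z, hz1, hz2, hz⟩ := zero_between hf (by linarith) hcd hd h3
  have hsub : (({x, y, z} : Finset ℝ) : Set ℝ) ⊆ {t | t ∈ Ioo (0 : ℝ) 1 ∧ f t = 0} := by
    intro t ht
    simp only [Finset.coe_insert, Finset.coe_singleton, mem_insert_iff, mem_singleton_iff] at ht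
    rcases ht with rfl | rfl | rfl
    · exact ⟨⟨by linarith, by linarith⟩, hx⟩
    · exact ⟨⟨by linarith, by linarith⟩, hy⟩
    · exact ⟨⟨by linarith, by linarith⟩, hz⟩
  have hcard : ({x, y, z} : Finset ℝ).card = 3 := by
    rw [Finset.card_eq_three]
    exact ⟨x, y, z, (hx2.trans hy1).ne, (hx2.trans (hy1.trans (hy2.trans hz1))).ne,
      (hy2.trans hz1).ne, rfl⟩
  have := Set.ncard_le_ncard hsub hfin
  rw [Set.ncard_coe_finset, hcard] at this
  exact this

/-! ### The crossings of two strands -/

variable {n : ℕ} (B : BraidProjection n)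

lemma cn_ne {i j : Fin n} (h : i ≠ j) :
    B.cn i j = {t | t ∈ Ioo (0 : ℝ) 1 ∧ B.strand i t = B.strand j t}.ncard := by
  simp [BraidProjection.cn, h]

lemma sub_set_eq (i j : Fin n) :
    {t | t ∈ Ioo (0 : ℝ) 1 ∧ (fun t => B.strand i t - B.strand j t) t = 0} =
      {t | t ∈ Ioo (0 : ℝ) 1 ∧ B.strand i t = B.strand j t} := by
  ext t
  simp [sub_eq_zero]

/-- Strands that do not cross keep their order. -/
lemma lt_of_cn_zero {i j : Fin n} (hij : i < j) (h : B.cn i j = 0) {t : ℝ}
    (ht : t ∈ Ioo (0 : ℝ) 1) : B.strand i t < B.strand j t := by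
  rw [cn_ne B hij.ne, Set.ncard_eq_zero (B.finite i j hij.ne)] at h
  have hno : ∀ s ∈ Ioo (0 : ℝ) 1, B.strand i s ≠ B.strand j s := by
    intro s hs he
    have : s ∈ ({t | t ∈ Ioo (0 : ℝ) 1 ∧ B.strand i t = B.strand j t} : Set ℝ) := ⟨hs, he⟩
    rw [h] at this
    exact this
  by_contra hcon
  have hgt : B.strand j t < B.strand i t := lt_of_le_of_ne (not_lt.1 hcon) (hno t ht).symm
  have hc : ContinuousOn (fun t => B.strand i t - B.strand j t) (Icc 0 t) :=
    ((B.continuousOn i).sub (B.continuousOn j)).mono (Icc_subset_Icc le_rfl ht.2.le)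
  have htop := B.top i j hij
  obtain ⟨z, hz, hz0⟩ := intermediate_value_Ioo ht.1.le hc
    (show (0 : ℝ) ∈ Ioo _ _ from ⟨by simpa using htop, by simpa using hgt⟩)
  exact hno z ⟨hz.1, hz.2.trans ht.2⟩ (sub_eq_zero.1 hz0)

/-- Strands that cross are at some time in the other order. -/
lemma exists_inverted {i j : Fin n} (hij : i < j) (h : B.cn i j ≠ 0) :
    ∃ t ∈ Ioo (0 : ℝ) 1, B.strand j t < B.strand i t := by
  rw [cn_ne B hij.ne] at h
  obtain ⟨p, hp, hpe⟩ := Set.nonempty_of_ncard_ne_zero h
  obtain ⟨ε, hε, h1 | h1⟩ := B.transverse i j hij.ne p hp hpe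
  · refine ⟨p + min ε (1 - p) / 2, ⟨?_, ?_⟩, h1.2 _ ⟨?_, ?_⟩⟩
    · have : 0 < min ε (1 - p) := lt_min hε (by linarith [hp.2])
      linarith [hp.1]
    · have : min ε (1 - p) ≤ 1 - p := min_le_right _ _
      linarith [hp.2]
    · have : 0 < min ε (1 - p) := lt_min hε (by linarith [hp.2])
      linarith
    · have : min ε (1 - p) ≤ ε := min_le_left _ _
      linarith
  · refine ⟨p - min ε p / 2, ⟨?_, ?_⟩, h1.1 _ ⟨?_, ?_⟩⟩
    · have : min ε p ≤ p := min_le_right _ _
      linarith [hp.1]
    · have : 0 < min ε p := lt_min hε hp.1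
      linarith [hp.2]
    · have : min ε p ≤ ε := min_le_left _ _
      linarith
    · have : 0 < min ε p := lt_min hε hp.1
      linarith

/-- Two strands that cross exactly twice do not exchange their order three times. -/
lemma no_alternation {S T : Fin n} (hST : S ≠ T) (h : B.cn S T = 2) {a b c d : ℝ}
    (ha : 0 < a) (hab : a < b) (hbc : b < c) (hcd : c < d) (hd : d < 1)
    (h1 : B.strand T a < B.strand S a) (h2 : B.strand S b < B.strand T b)
    (h3 : B.strand T c < B.strand S c) (h4 : B.strand S d < B.strand T d) : False := by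
  have hf : ContinuousOn (fun t => B.strand S t - B.strand T t) (Icc 0 1) :=
    (B.continuousOn S).sub (B.continuousOn T)
  have := three_zeros hf ha hab hbc hcd hd
    (mul_neg_of_pos_of_neg (sub_pos.2 h1) (sub_neg.2 h2))
    (mul_neg_of_neg_of_pos (sub_neg.2 h2) (sub_pos.2 h3))
    (mul_neg_of_pos_of_neg (sub_pos.2 h3) (sub_neg.2 h4))
    (by rw [sub_set_eq]; exact B.finite S T hST)
  rw [sub_set_eq, ← cn_ne B hST, h] at this
  omega

/-! ### The matrix -/

/-- The subsets of `{0,1,2,3}` of sizes `1, 2, 3`, coded as bit masks. -/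
def mask : Fin 14 → ℕ := ![1, 2, 4, 8, 3, 5, 9, 6, 10, 12, 7, 11, 13, 14]

/-- The entries: `0` for comparable subsets and `2` for incomparable ones. -/
def entry (i j : Fin 14) : ℕ :=
  if mask i &&& mask j = mask i ∨ mask i &&& mask j = mask j then 0 else 2

/-- The matrix. -/
def M : Matrix (Fin 14) (Fin 14) ℕ := fun i j => entry i j

/-- the singleton `{i}` -/
def sing : Fin 4 → Fin 14 := ![0, 1, 2, 3]

/-- the complement of `{i}` -/
def comp : Fin 4 → Fin 14 := ![13, 12, 11, 10]

/-- the pair `{i, j}` for `i ≠ j` -/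
def pair : Fin 4 → Fin 4 → Fin 14 :=
  ![![0, 4, 5, 6], ![4, 0, 7, 8], ![5, 7, 0, 9], ![6, 8, 9, 0]]

lemma sing_comp : ∀ i, sing i < comp i ∧ M (sing i) (comp i) = 2 := by decide

lemma sing_comp' : ∀ i j, i ≠ j → sing j < comp i ∧ M (sing j) (comp i) = 0 := by decide

lemma sing_pair : ∀ i j, i ≠ j → sing i < pair i j ∧ M (sing i) (pair i j) = 0 ∧
    pair i j = pair j i := by decide

lemma pair_comp : ∀ i j k, i ≠ j → k ≠ i → k ≠ j →
    pair i j < comp k ∧ M (pair i j) (comp k) = 0 := by decide

lemma pair_pair : ∀ i j k l, i ≠ j → i ≠ k → i ≠ l → j ≠ k → j ≠ l → k ≠ l →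
    pair i k ≠ pair j l ∧ M (pair i k) (pair j l) = 2 := by decide

lemma entry_symm : ∀ i j : Fin 14, entry j i = entry i j := by decide

lemma M_symm : M.IsSymm := by
  ext i j
  exact entry_symm i j

lemma M_even : ∀ i j, Even (M i j) := by
  intro i j
  simp only [M, entry]
  split_ifs
  · exact Even.zero
  · exact even_two

lemma entry_diag : ∀ i : Fin 14, entry i i = 0 := by decide

lemma entry_trans : ∀ i j k : Fin 14, i < j → j < k → entry i j = 0 → entry j k = 0 →
    entry i k = 0 := by
  decide +kernel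

lemma M_T0 : IsT0 M := ⟨entry_diag, entry_trans⟩

/-- `M` is not a CN matrix (the projection need not even be pure). -/
lemma not_cn (B : BraidProjection 14) (hB : B.cn = M) : False := by
  -- the four times
  have ht : ∀ i : Fin 4, ∃ t ∈ Ioo (0 : ℝ) 1, B.strand (comp i) t < B.strand (sing i) t := by
    intro i
    apply exists_inverted B (sing_comp i).1
    rw [hB, (sing_comp i).2]
    norm_num
  choose t ht01 ht using ht
  have hlt : ∀ {x y : Fin 14}, x < y → M x y = 0 → ∀ i, B.strand x (t i) < B.strand y (t i) := by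
    intro x y hxy hM i
    exact lt_of_cn_zero B hxy (by rw [hB, hM]) (ht01 i)
  -- a set containing `i` is to the right of a set avoiding `i` at time `t i`
  have key : ∀ i k j l : Fin 4, i ≠ k → j ≠ l → i ≠ j → i ≠ l →
      B.strand (pair j l) (t i) < B.strand (pair i k) (t i) := by
    intro i k j l hik hjl hij hil
    have h1 := hlt (sing_pair i k hik).1 (sing_pair i k hik).2.1 i
    have h2 := hlt (pair_comp j l i hjl hij hil).1 (pair_comp j l i hjl hij hil).2 i
    exact h2.trans ((ht i).trans h1)
  have hinj : ∀ i j : Fin 4, i ≠ j → t i ≠ t j := by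
    intro i j hij he
    have h1 : B.strand (sing j) (t i) < B.strand (sing i) (t i) :=
      (hlt (sing_comp' i j hij).1 (sing_comp' i j hij).2 i).trans (ht i)
    have h2 : B.strand (sing i) (t j) < B.strand (sing j) (t j) :=
      (hlt (sing_comp' j i hij.symm).1 (sing_comp' j i hij.symm).2 j).trans (ht j)
    rw [he] at h1
    exact lt_asymm h1 h2
  -- sort the four times
  have main : ∀ i j k l : Fin 4, i ≠ j → i ≠ k → i ≠ l → j ≠ k → j ≠ l → k ≠ l →
      t i < t j → t j < t k → t k < t l → False := by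
    intro i j k l hij hik hil hjk hjl hkl h1 h2 h3
    obtain ⟨hne, hM⟩ := pair_pair i j k l hij hik hil hjk hjl hkl
    refine no_alternation B hne (by rw [hB, hM]) (ht01 i).1 h1 h2 h3 (ht01 l).2 ?_ ?_ ?_ ?_
    · exact key i k j l hik hjl hij hil
    · exact key j l i k hjl hik hij.symm hjk
    · have := key k i j l hik.symm hjl hjk.symm hkl
      rwa [(sing_pair k i hik.symm).2.2] at this
    · have := key l j i k hjl.symm hik hil.symm hkl.symm
      rwa [(sing_pair l j hjl.symm).2.2] at this
  let σ := Tuple.sort t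
  have hmono : Monotone (t ∘ σ) := Tuple.monotone_sort t
  have hs : ∀ a b : Fin 4, a < b → t (σ a) < t (σ b) := by
    intro a b hab
    exact lt_of_le_of_ne (hmono hab.le) (hinj _ _ (σ.injective.ne hab.ne))
  exact main (σ 0) (σ 1) (σ 2) (σ 3)
    (σ.injective.ne (by decide)) (σ.injective.ne (by decide)) (σ.injective.ne (by decide))
    (σ.injective.ne (by decide)) (σ.injective.ne (by decide)) (σ.injective.ne (by decide))
    (hs 0 1 (by decide)) (hs 1 2 (by decide)) (hs 2 3 (by decide))

/-- **The conjecture is false.**  There is a symmetric, even, T0 matrix (of size `14`, with entries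
in `{0, 2}`) that is not the CN matrix of any braid projection, pure or not. -/
theorem result :
    (∃ M : Matrix (Fin 14) (Fin 14) ℕ, M.IsSymm ∧ (∀ i j, Even (M i j)) ∧ IsT0 M ∧
      ∀ B : BraidProjection 14, B.cn ≠ M) ∧
    ¬ ∀ (n : ℕ), 1 ≤ n → ∀ (M : Matrix (Fin n) (Fin n) ℕ),
      (∃ B : BraidProjection n, B.Pure ∧ B.cn = M) ↔
        (M.IsSymm ∧ (∀ i j, Even (M i j)) ∧ IsT0 M) := by
  refine ⟨⟨M, M_symm, M_even, M_T0, fun B hB => not_cn B hB⟩, fun h => ?_⟩
  obtain ⟨B, -, hB⟩ := (h 14 (by norm_num) M).2 ⟨M_symm, M_even, M_T0⟩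
  exact not_cn B hB

end Pool.Agent.Results.MP_550572_gt.MiddleLevels
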